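import Pool.Agent.H491R3.AM4
import Pool.Agent.K3h37.LM.Base

/-!
# The least primes in almost all classes, for almost all moduli in automatic sets

For fixed `C₁` and almost all moduli `a` in an automatic set the bound `p(a, b) ≤ C₁ φ(a) (log a)²` holds for all reduced
classes `b` with at most `(1 + ε) φ(a) / (C₁ log a)` exceptions.

Nothing is used besides Mathlib in the statement. `Nat.digits g v` is the list of the digits of `v` in base `g`, the least
significant digit first; a finite automaton reading these lists decides which integers are accepted.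
-/

set_option autoImplicit false

namespace Pool.Agent.Results.MP_5b0a7e_nt.AutomaticModuli

open Finset Filter

open Classical in
/-- The number of the `b` with `0 ≤ b < a` and `gcd(a, b) = 1` for which no prime `p ≤ x` is congruent to `b` modulo
`a`; for `a ≥ 2` this is the number of the reduced classes with `p(a, b) > x`. -/
noncomputable def late (a : ℕ) (x : ℝ) : ℕ :=
  ((range a).filter (fun b => Nat.Coprime b a ∧ ∀ p : ℕ, p.Prime → (p : ℝ) ≤ x → ¬ p % a = b)).card

/-- `ψ(x; a, b) = ∑_{n ≤ x, n ≡ b mod a} Λ(n)` for `0 ≤ b < a` -/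
noncomputable def psiAP (x : ℝ) (a b : ℕ) : ℝ :=
  ∑ n ∈ (Icc 1 ⌊x⌋₊).filter (fun n => n % a = b), ArithmeticFunction.vonMangoldt n

open Classical in
/-- The number of the `b` with `0 ≤ b < a` and `gcd(a, b) = 1` with `|ψ(x; a, b) - x / φ(a)| ≥ η x / φ(a)`. -/
noncomputable def off (a : ℕ) (x η : ℝ) : ℕ :=
  ((range a).filter (fun b => Nat.Coprime b a ∧ η * (x / (Nat.totient a : ℝ)) ≤
    |psiAP x a b - x / (Nat.totient a : ℝ)|)).card

/-- For all real `x = lam φ(a) log a` with `a ≤ x ≤ a (log a) ^ κ`: the least prime `p(a, b)` is larger than `x` for at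
most `(1 + ε) φ(a) / (1 + lam)` of the reduced classes `b`, and for all `η > 0` at most `(1 + ε) φ(a) / (η² lam)` of the
reduced classes `b` have `|ψ(x; a, b) - x / φ(a)| ≥ η x / φ(a)`. -/
def Good (ε : ℝ) (κ a : ℕ) : Prop :=
  ∀ x : ℝ, (a : ℝ) ≤ x → x ≤ a * Real.log a ^ κ →
    (late a x : ℝ) * (1 + x / (Nat.totient a * Real.log a)) ≤ (1 + ε) * Nat.totient a ∧
    ∀ η : ℝ, 0 < η → (off a x η : ℝ) * (η ^ 2 * (x / (Nat.totient a * Real.log a))) ≤ (1 + ε) * Nat.totient a

lemma good_iff (ε : ℝ) (κ a : ℕ) : Good ε κ a ↔ Pool.Agent.R501.LP.LpG ε κ a := Iff.rfl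

open Classical in
/-- the number of the `v < N` which are accepted by the automaton `M` (reading the digits of `v` in base `g`, the least
significant digit first) and have the property `E` -/
noncomputable def acc {σ : Type} (g : ℕ) (M : DFA ℕ σ) (N : ℕ) (E : ℕ → Prop) : ℕ :=
  ((range N).filter (fun v => Nat.digits g v ∈ M.accepts ∧ E v)).card

lemma acc_mono {σ : Type} (g : ℕ) (M : DFA ℕ σ) (N : ℕ) (E F : ℕ → Prop) (h : ∀ v, v < N → E v → F v) :
    acc g M N E ≤ acc g M N F := by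
  classical
  unfold acc
  apply card_le_card
  intro v hv
  rw [mem_filter, mem_range] at hv ⊢
  exact ⟨hv.1, hv.2.1, h v hv.1 hv.2.2⟩

lemma acc_true {σ : Type} (g : ℕ) (M : DFA ℕ σ) (N : ℕ) [DecidablePred fun v => Nat.digits g v ∈ M.accepts] :
    acc g M N (fun _ => True) = ((range N).filter fun v => Nat.digits g v ∈ M.accepts).card := by
  unfold acc
  congr 1
  ext v
  simp only [mem_filter, and_true]

/-- **The least primes in almost all classes, for the moduli in automatic sets.** Let `S` be an automatic set (the set of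
the integers `v ≥ 0` whose digits in base `g` are accepted by the finite automaton `M`) of more than polylogarithmic size:
for every `k` there are infinitely many `N` such that more than `(log N) ^ k` elements of `S` are smaller than `N`. Let
`B`, `κ`, `U`, the integer `μ ≠ 0` and `0 < ε ≤ 1` be fixed, let `N` be large, and let `c` be an arbitrary integer with
`|c| ≤ B N`. Then all the elements `v < N` of `S`, up to a proportion of at most `1 / (log N) ^ U` of them, have the
following property: the modulus `a = c + μ v` is smaller than `N / (log N) ^ κ`, or it is `Good`: for all real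
`x = lam φ(a) log a` with `a ≤ x ≤ a (log a) ^ κ` one has `p(a, b) ≤ x` for all reduced classes `b` with at most
`(1 + ε) φ(a) / (1 + lam)` exceptions (for `lam = C₁ log a`: `p(a, b) ≤ C₁ φ(a) (log a)²` with fewer than
`(1 + ε) φ(a) / (C₁ log a)` exceptions), and for all `η > 0` one has `|ψ(x; a, b) - x / φ(a)| < η x / φ(a)` with at most
`(1 + ε) φ(a) / (η² lam)` exceptions. -/
theorem result {σ : Type} [Fintype σ] (g : ℕ) (hg : 2 ≤ g) (M : DFA ℕ σ)
    (hS : ∀ k : ℕ, ∃ᶠ N : ℕ in atTop, Real.log N ^ k < (acc g M N (fun _ => True) : ℝ))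
    (B κ U : ℕ) (μ : ℤ) (hμ : μ ≠ 0) (ε : ℝ) (hε : 0 < ε) (hε1 : ε ≤ 1) :
    ∃ N₀ : ℕ, ∀ N : ℕ, N₀ ≤ N → ∀ c : ℤ, |c| ≤ B * (N : ℤ) →
      (acc g M N (fun v => (N : ℝ) ≤ ((c + μ * v : ℤ) : ℝ) * Real.log N ^ κ ∧
        ¬ Good ε κ (c + μ * v).toNat) : ℝ) ≤ acc g M N (fun _ => True) / Real.log N ^ U := by
  classical
  obtain ⟨B', e₀, N₁, hB', _, h1⟩ := Pool.Agent.H491R3.AM.aut_badq g hg M
    (fun k => (hS k).mono (fun N hN => by rwa [acc_true] at hN)) μ hμ B (κ + 2) U (ε / 4) (by linarith) (by linarith)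
  obtain ⟨N₂, h2⟩ := Pool.Agent.H491R3.AM.badq_of_log B' e₀ (κ + 1) hB' (ε / 4)
  obtain ⟨Q₀, hQ₀, hx⟩ := Pool.Agent.K3h37.LM.bad_x κ ε hε hε1
  obtain ⟨N₃, hN₃, h3⟩ := Pool.Agent.K3h37.LM.log_pow_le (B + μ.natAbs) κ
  obtain ⟨N₄, h4⟩ := Pool.Agent.K3h37.LM.large_of Q₀ κ
  refine ⟨N₁ + N₂ + N₃ + N₄, fun N hN c hc => ?_⟩
  have h5 := h1 N (by omega) c hc
  rw [acc_true]
  refine le_trans ?_ h5
  refine Nat.cast_le.2 (acc_mono g M N _
    (fun v => Pool.Agent.Y958.RM.BadQ (ε / 4) (κ + 2) (Nat.log B' N + 1 + e₀) B' (c + μ * v)) ?_)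
  rintro v hv ⟨g1, g2⟩
  obtain ⟨Q, hQ⟩ : ∃ Q : ℤ, Q = c + μ * v := ⟨_, rfl⟩
  rw [← hQ] at g1 g2 ⊢
  obtain ⟨g3, g4⟩ := h4 N (by omega) Q g1
  have hQn : ((Q.toNat : ℕ) : ℤ) = Q := Int.toNat_of_nonneg g4.le
  have hQr : ((Q.toNat : ℕ) : ℝ) = (Q : ℝ) := by exact_mod_cast hQn
  have hQ0 : (0 : ℝ) < Q := by exact_mod_cast g4
  obtain ⟨x, x1, x2, x3⟩ := hx Q.toNat g3 (by rwa [good_iff] at g2)
  have hlN : 1 ≤ Real.log N := by
    rw [Real.le_log_iff_exp_le (by exact_mod_cast (by omega : 0 < N))]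
    have e1 := Real.exp_one_lt_d9
    have e2 : (3 : ℝ) ≤ N := by exact_mod_cast (by omega : 3 ≤ N)
    linarith
  have hle : Q.toNat ≤ (B + μ.natAbs) * N := by
    have e1 : Q ≤ |c| + |μ| * v := by
      rw [hQ]
      have e2 := le_abs_self (c + μ * v)
      have e3 := abs_add_le c (μ * v)
      rw [abs_mul, Nat.abs_cast] at e3
      linarith
    have e2 : |μ| * (v : ℤ) ≤ |μ| * N := mul_le_mul_of_nonneg_left (by exact_mod_cast hv.le) (abs_nonneg μ)
    have e3 : |μ| = (μ.natAbs : ℤ) := Int.abs_eq_natAbs μ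
    have e4 : ((Q.toNat : ℕ) : ℤ) ≤ ((B + μ.natAbs : ℕ) : ℤ) * N := by
      rw [hQn]; push_cast; linarith
    exact_mod_cast e4
  refine h2 N (by omega) Q ?_ ⟨x, x1, ?_, x3⟩
  · refine g1.trans (mul_le_mul_of_nonneg_left ?_ hQ0.le)
    exact pow_le_pow_right₀ hlN (by omega)
  · exact x2.trans (mul_le_mul_of_nonneg_left (h3 N (by omega) _ (by omega) hle) (Nat.cast_nonneg _))

end Pool.Agent.Results.MP_5b0a7e_nt.AutomaticModuli
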