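import Pool.Agent.K3h21.LN.Short

set_option autoImplicit false

/-!
# Clusters of almost primes near the beginning of every arithmetic progression

For every `r ≥ 2` and `lam > (24 r - 3) / (24 r - 28)` (so `lam > 9 / 4` for `r = 2`, `lam > 69 / 44` for `r = 3`,
`lam > 93 / 68` for `r = 4`, and `lam → 1` as `r → ∞`) every reduced class `b` modulo every large `a`
contains clusters of `m` numbers with at most `r` prime factors in `(x / 2, x]` for every `x ≥ a ^ lam`.

Method: the sieve of Maynard and Tao with Richert's weights in the slots, in a form which is uniform in the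
modulus and in the position, and Szemerédi's theorem relative to sifted sets.
-/

namespace Pool.Agent.Results.MP_5b0a7e_nt.Clusters

open Finset Filter

/-- `n` has at most `r` prime factors, counted with multiplicity, all of them at least `w`. -/
def AlmostPrime (r : ℕ) (w : ℝ) (n : ℕ) : Prop :=
  n.primeFactorsList.length ≤ r ∧ ∀ p : ℕ, p.Prime → p ∣ n → w ≤ p

/-- The interval `(x / 2, x]` contains clusters of almost primes `≡ b` modulo `a` of a shape from `S`: there
are a subset `H` of `S` with `m` elements and natural numbers `u` and `1 ≤ d ≤ D` such that all the numbers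
`a (u + j d + h) + b`, `j < l`, `h ∈ H`, lie in `(x / 2, x]` and are almost primes. -/
def HasClusters (r : ℕ) (w : ℝ) (S : Finset ℕ) (m l : ℕ) (D : ℝ) (a b : ℕ) (x : ℝ) : Prop :=
  ∃ H ⊆ S, H.card = m ∧ ∃ u d : ℕ, 1 ≤ d ∧ (d : ℝ) ≤ D ∧ ∀ j < l, ∀ h ∈ H,
    x / 2 < ((a * (u + j * d + h) + b : ℕ) : ℝ) ∧ ((a * (u + j * d + h) + b : ℕ) : ℝ) ≤ x ∧
    AlmostPrime r w (a * (u + j * d + h) + b)

/-- **Clusters of almost primes near the beginning of every arithmetic progression.** Let `r ≥ 2` and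
`lam > (24 r - 3) / (24 r - 28)`. For every `m` there is `K` such that for every set `S` of at least `K` natural
numbers and every `l` there is `B` such that for all sufficiently large `a`, all `b < a` prime to `a` and all
`x ≥ a ^ lam` the interval `(x / 2, x]` contains clusters of `m` numbers `≡ b` modulo `a` with at most `r`
prime factors, all of them at least `(x / 2) ^ (1 / (4 r))`, of a shape from `S`, repeated `l` times in an
arithmetic progression with a difference at most `a (log x) ^ B`. -/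
theorem result (r : ℕ) (hr : 2 ≤ r) (lam : ℝ) (hlam : (24 * (r : ℝ) - 3) / (24 * r - 28) < lam) (m : ℕ) :
    ∃ K : ℕ, ∀ S : Finset ℕ, K ≤ S.card → ∀ l : ℕ, ∃ B : ℕ, ∀ᶠ a : ℕ in atTop,
      ∀ b : ℕ, b < a → Nat.Coprime b a → ∀ x : ℝ, (a : ℝ) ^ lam ≤ x →
        HasClusters r ((x / 2) ^ (1 / (4 * r : ℝ))) S m l (Real.log x ^ B) a b x := by
  have hrr : (2 : ℝ) ≤ r := by exact_mod_cast hr
  have hden : 0 < 24 * (r : ℝ) - 3 := by linarith
  have hden2 : 0 < 24 * (r : ℝ) - 28 := by linarith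
  have hlam1 : 1 < lam := lt_trans (by rw [lt_div_iff₀ hden2]; linarith) hlam
  have hlam0 : 0 < lam := by linarith
  have h1 : 1 / lam < 1 - 25 / (24 * (r : ℝ) - 3) := by
    rw [div_lt_iff₀ hlam0]
    rw [div_lt_iff₀ hden2] at hlam
    rw [sub_mul, div_mul_eq_mul_div, one_mul, lt_sub_iff_add_lt, ← lt_sub_iff_add_lt',
      div_lt_iff₀ hden]
    linarith
  obtain ⟨σ, hσ1, hσ2⟩ := exists_between h1
  have hσ0 : 0 < σ := lt_trans (by positivity) hσ1
  obtain ⟨K, hK⟩ := Pool.Agent.K3h21.LN.short r hr 1 σ hσ0.le (by linarith) le_rfl m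
  refine ⟨K, fun S hS l => ?_⟩
  obtain ⟨B, hB⟩ := hK S hS l
  refine ⟨B, ?_⟩
  have e1 : ∀ᶠ x : ℝ in atTop, (2 : ℝ) ≤ x ^ (lam * σ - 1) := by
    refine (tendsto_rpow_atTop ?_).eventually_ge_atTop _
    rw [div_lt_iff₀ hlam0] at hσ1
    linarith
  obtain ⟨X, hX⟩ := eventually_atTop.1 hB
  have hT : Tendsto (fun a : ℕ => (a : ℝ) ^ lam) atTop atTop :=
    (tendsto_rpow_atTop hlam0).comp (tendsto_natCast_atTop_atTop (R := ℝ))
  filter_upwards [hT.eventually_ge_atTop (2 * X), hT.eventually_ge_atTop 4,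
    (tendsto_natCast_atTop_atTop (R := ℝ)).eventually e1, eventually_ge_atTop 1] with
    a ha1 ha4 ha2 ha3 b hb hcop x hx
  have hx4 : 4 ≤ x := ha4.trans hx
  have ha0 : (1 : ℝ) ≤ a := by exact_mod_cast ha3
  have ha00 : (0 : ℝ) < a := by linarith
  have hq : (a : ℝ) ≤ (x / 2) ^ σ := by
    have h2 : ((a : ℝ) ^ lam / 2) ^ σ ≤ (x / 2) ^ σ :=
      Real.rpow_le_rpow (by positivity) (by linarith) hσ0.le
    have h3 : ((a : ℝ) ^ lam / 2) ^ σ = (a : ℝ) ^ (lam * σ) / 2 ^ σ := by
      rw [Real.div_rpow (by positivity) (by norm_num), ← Real.rpow_mul ha00.le]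
    have h4 : (2 : ℝ) ^ σ ≤ 2 := by
      calc (2 : ℝ) ^ σ ≤ 2 ^ (1 : ℝ) := by
            apply Real.rpow_le_rpow_of_exponent_le (by norm_num)
            have : 0 < 25 / (24 * (r : ℝ) - 3) := by positivity
            linarith
        _ = 2 := Real.rpow_one _
    have h5 : (a : ℝ) ^ (lam * σ) = a * (a : ℝ) ^ (lam * σ - 1) := by
      rw [Real.rpow_sub_one ha00.ne']
      field_simp
    have h6 : (a : ℝ) ≤ (a : ℝ) ^ (lam * σ) / 2 ^ σ := by
      rw [le_div_iff₀ (by positivity), h5]
      have h7 : (a : ℝ) * 2 ^ σ ≤ a * 2 := by gcongr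
      have h8 : (a : ℝ) * 2 ≤ a * (a : ℝ) ^ (lam * σ - 1) := by gcongr
      linarith
    linarith
  obtain ⟨H, hH, hHc, u, d, g1, g2, g3⟩ := hX (x / 2) (by linarith) a b hq hb hcop
  refine ⟨H, hH, hHc, u, d, g1, g2.trans ?_, fun j hj h hh => ?_⟩
  · apply pow_le_pow_left₀ (Real.log_nonneg (by linarith))
    exact Real.log_le_log (by linarith) (by linarith)
  · obtain ⟨a1, a2, a3, a4⟩ := g3 j hj h hh
    rw [Real.rpow_one] at a2
    exact ⟨a1, by linarith, a3, a4⟩

end Pool.Agent.Results.MP_5b0a7e_nt.Clusters
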