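import Pool.Agent.Results.MP_5d318d_nt.FewDigitModuli
import Pool.Agent.K3h37.LM.Base

/-!
# The least primes in almost all classes, for moduli which arise from an arbitrary integer by `C log log X` changes of digits

From an arbitrary integer below `X = g ^ K` one obtains by `3 C₁ m`, `m = ⌊log_g (K + 1)⌋ + 1`, changes of digits, for
almost all choices of the positions, a modulus `a` for which the bound `p(a, b) ≤ C φ(a) (log a)²` holds for all reduced
classes `b` with at most `(1 + ε) φ(a) / (C log a)` exceptions.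

Nothing is used besides Mathlib in the statement.
-/

set_option autoImplicit false

namespace Pool.Agent.Results.MP_5b0a7e_nt.FewDigitModuli

open Finset

open Classical in
/-- The number of the `b` with `0 ≤ b < a` and `gcd(a, b) = 1` for which no prime `p ≤ x` is congruent to `b` modulo
`a`; for `a ≥ 2` this is the number of the reduced classes with `p(a, b) > x`. -/
noncomputable def late (a : ℕ) (x : ℝ) : ℕ :=
  ((range a).filter (fun b => Nat.Coprime b a ∧ ∀ p : ℕ, p.Prime → (p : ℝ) ≤ x → ¬ p % a = b)).card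

/-- `ψ(x; a, b) = ∑_{n ≤ x, n ≡ b mod a} Λ(n)` for `0 ≤ b < a` -/
noncomputable def psiAP (x : ℝ) (a b : ℕ) : ℝ :=
  ∑ n ∈ (Icc 1 ⌊x⌋₊).filter (fun n => n % a = b), ArithmeticFunction.vonMangoldt n

open Classical in
/-- The number of the `b` with `0 ≤ b < a` and `gcd(a, b) = 1` with `|ψ(x; a, b) - x / φ(a)| ≥ η x / φ(a)`. -/
noncomputable def off (a : ℕ) (x η : ℝ) : ℕ :=
  ((range a).filter (fun b => Nat.Coprime b a ∧ η * (x / (Nat.totient a : ℝ)) ≤
    |psiAP x a b - x / (Nat.totient a : ℝ)|)).card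

/-- For all real `x = lam φ(a) log a` with `a ≤ x ≤ a (log a) ^ κ`: the least prime `p(a, b)` is larger than `x` for at
most `(1 + ε) φ(a) / (1 + lam)` of the reduced classes `b`, and for all `η > 0` at most `(1 + ε) φ(a) / (η² lam)` of the
reduced classes `b` have `|ψ(x; a, b) - x / φ(a)| ≥ η x / φ(a)`. -/
def Good (ε : ℝ) (κ a : ℕ) : Prop :=
  ∀ x : ℝ, (a : ℝ) ≤ x → x ≤ a * Real.log a ^ κ →
    (late a x : ℝ) * (1 + x / (Nat.totient a * Real.log a)) ≤ (1 + ε) * Nat.totient a ∧
    ∀ η : ℝ, 0 < η → (off a x η : ℝ) * (η ^ 2 * (x / (Nat.totient a * Real.log a))) ≤ (1 + ε) * Nat.totient a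

lemma good_iff (ε : ℝ) (κ a : ℕ) : Good ε κ a ↔ Pool.Agent.R501.LP.LpG ε κ a := Iff.rfl

/-- The digit number `i` (counted from the right, beginning with `0`) of `n` in base `g`. -/
def digit (g i n : ℕ) : ℕ := n / g ^ i % g

/-- The number which arises from the number `N` with at most `K` digits in base `g`, if for every `i ∈ S`
the digit number `i` is replaced by `f i`. -/
def change (g K N : ℕ) (f : ℕ → ℕ) (S : Finset ℕ) : ℕ :=
  ∑ i ∈ range K, (if i ∈ S then f i else digit g i N) * g ^ i

/-- The positions `1, ..., K - 1` of a number with at most `K` digits are divided into three windows: the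
first and the last `h` positions and the rest. -/
def window (h K : ℕ) (q : Fin 3) : Finset ℕ :=
  if q = 0 then Ico 1 (1 + h) else if q = 1 then Ico (1 + h) (K - h) else Ico (K - h) K

/-- The choices of `s 0`, `s 1`, `s 2` positions in the three windows. -/
def choices (h K : ℕ) (s : Fin 3 → ℕ) : Finset (Fin 3 → Finset ℕ) :=
  Fintype.piFinset (fun q => powersetCard (s q) (window h K q))

open Classical in
/-- The number of the choices for which the number obtained by changing the digits of `N` at the chosen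
positions (according to `f`) does not have the property `E`. -/
noncomputable def exceptions (g h K N : ℕ) (f : ℕ → ℕ) (s : Fin 3 → ℕ) (E : ℕ → Prop) : ℕ :=
  ((choices h K s).filter (fun S => ¬ E (change g K N f (S 0 ∪ S 1 ∪ S 2)))).card

lemma exceptions_mono (g h K N : ℕ) (f : ℕ → ℕ) (s : Fin 3 → ℕ) (E F : ℕ → Prop)
    (hEF : ∀ S ∈ choices h K s, F (change g K N f (S 0 ∪ S 1 ∪ S 2)) → E (change g K N f (S 0 ∪ S 1 ∪ S 2))) :
    exceptions g h K N f s E ≤ Pool.Agent.Results.MP_5d318d_nt.FewDigitModuli.exceptions g h K N f s F := by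
  classical
  unfold exceptions Pool.Agent.Results.MP_5d318d_nt.FewDigitModuli.exceptions
  refine card_le_card fun S hS => ?_
  rw [mem_filter] at hS ⊢
  exact ⟨hS.1, fun h => hS.2 (hEF S hS.1 h)⟩

/-- **The least primes for moduli near arbitrary integers.** For every base `g ≥ 2` there is an `R ≥ 1` with the following
property. Let `κ`, `U` and `0 < ε ≤ 1` be given. Then there are `C₁ ≥ 1` and `A` such that for every sufficiently large `K`
and every integer `0 ≤ N < X = g ^ K` the following holds.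

Let `m = ⌊log_g (K + 1)⌋ + 1` and `h = A m`, and divide the positions `1, ..., K - 1` of the digits into three windows: the
first `h` and the last `h` of them, and the rest. Prescribe for every position `j` a digit `f j` different from the
digit of `N`. Let `s 0`, `s 1`, `s 2` be integers between `C₁ m` and `1 / R` times the length of the respective
window (by the first assertion one can take `s q = C₁ m`, so that only `3 C₁ m` of the digits of `N` are changed).

If one chooses `s 0`, `s 1`, `s 2` positions in the three windows and replaces the digits of `N` at these positions, then for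
all but at most a proportion `1 / K ^ U` of the choices the number `a` obtained is smaller than `X / K ^ κ`, or it is
`Good`: for all real `x = lam φ(a) log a` with `a ≤ x ≤ a (log a) ^ κ` one has `p(a, b) ≤ x` for all reduced classes `b`
with at most `(1 + ε) φ(a) / (1 + lam)` exceptions (for `lam = C log a`: `p(a, b) ≤ C φ(a) (log a)²` with fewer than
`(1 + ε) φ(a) / (C log a)` exceptions), and for all `η > 0` one has `|ψ(x; a, b) - x / φ(a)| < η x / φ(a)` with at most
`(1 + ε) φ(a) / (η² lam)` exceptions. -/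
theorem result (g : ℕ) (hg : 2 ≤ g) : ∃ R : ℕ, 1 ≤ R ∧ ∀ κ U : ℕ, ∀ ε : ℝ, 0 < ε → ε ≤ 1 → ∃ C₁ A K₀ : ℕ, 1 ≤ C₁ ∧
    ∀ K : ℕ, K₀ ≤ K → (∀ q, R * (C₁ * (Nat.log g (K + 1) + 1)) ≤ (window (A * (Nat.log g (K + 1) + 1)) K q).card) ∧
    ∀ N : ℕ, N < g ^ K → ∀ f : ℕ → ℕ, (∀ j, f j < g ∧ f j ≠ digit g j N) →
    ∀ s : Fin 3 → ℕ, (∀ q, C₁ * (Nat.log g (K + 1) + 1) ≤ s q ∧ R * s q ≤ (window (A * (Nat.log g (K + 1) + 1)) K q).card) →
      (exceptions g (A * (Nat.log g (K + 1) + 1)) K N f s (fun a => g ^ K ≤ a * K ^ κ → Good ε κ a) : ℝ) ≤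
        1 / (K : ℝ) ^ U * (choices (A * (Nat.log g (K + 1) + 1)) K s).card := by
  classical
  obtain ⟨R, hR, H⟩ := Pool.Agent.Results.MP_5d318d_nt.FewDigitModuli.result g hg
  refine ⟨R, hR, fun κ U ε hε hε1 => ?_⟩
  obtain ⟨C₁, A, K₀, hC, H1⟩ := H (κ + 1) U (ε / 4) (by linarith) (by linarith)
  obtain ⟨Q₀, hQ₀, hx⟩ := Pool.Agent.K3h37.LM.bad_x κ ε hε hε1
  obtain ⟨K₁, h1⟩ := Pool.Agent.K3h37.LM.large_pow g hg Q₀ κ
  refine ⟨C₁, A, K₀ + K₁ + g ^ κ + 1, hC, fun K hK => ⟨(H1 K (by omega)).1, fun N hN f hf s hs => ?_⟩⟩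
  refine le_trans ?_ ((H1 K (by omega)).2 N hN f hf s hs)
  refine Nat.cast_le.2 (exceptions_mono g _ K N f s _ _ fun S _ hgood hbig => ?_)
  by_contra hbad
  obtain ⟨a, ha⟩ : ∃ a, a = change g K N f (S 0 ∪ S 1 ∪ S 2) := ⟨_, rfl⟩
  have hgood' : Pool.Agent.Results.MP_5d318d_nt.FewDigitModuli.Good (ε / 4) (κ + 1) g K a := by
    rw [ha]; exact hgood
  rw [← ha] at hbig hbad
  have hlt : a < g ^ K := by
    rw [ha]
    exact Pool.Agent.TH894.SM.change_lt g K N (by omega) f (fun j => (hf j).1) _
  have hK1 : 1 ≤ K := by omega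
  have haQ := h1 K (by omega) a hbig
  obtain ⟨x, x1, x2, x3⟩ := hx a haQ (by rwa [good_iff] at hbad)
  have ha0 : (0 : ℝ) < a := by exact_mod_cast (by omega : 0 < a)
  have hlog : Real.log a ^ κ ≤ (K : ℝ) ^ (κ + 1) := by
    have e1 : Real.log a ≤ g * K := by
      have g1 : (a : ℝ) ≤ (g : ℝ) ^ K := by exact_mod_cast hlt.le
      have g2 := Real.log_le_log ha0 g1
      rw [Real.log_pow] at g2
      have g0 : (0 : ℝ) < g := by exact_mod_cast (by omega : 0 < g)
      have g3 : Real.log (g : ℝ) ≤ g := (Real.log_le_sub_one_of_pos g0).trans (by linarith)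
      calc Real.log a ≤ K * Real.log g := g2
        _ ≤ K * g := mul_le_mul_of_nonneg_left g3 (Nat.cast_nonneg _)
        _ = g * K := mul_comm _ _
    calc Real.log a ^ κ ≤ (g * K : ℝ) ^ κ := pow_le_pow_left₀ (Real.log_natCast_nonneg _) e1 _
      _ = (g : ℝ) ^ κ * (K : ℝ) ^ κ := mul_pow _ _ _
      _ ≤ K * (K : ℝ) ^ κ := by
          apply mul_le_mul_of_nonneg_right _ (by positivity)
          exact_mod_cast (by omega : g ^ κ ≤ K)
      _ = _ := by ring
  refine x3 (hgood' ?_ x x1 (x2.trans (mul_le_mul_of_nonneg_left hlog ha0.le)))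
  exact hbig.trans (Nat.mul_le_mul_left _ (Nat.pow_le_pow_right hK1 (by omega)))

end Pool.Agent.Results.MP_5b0a7e_nt.FewDigitModuli
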