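import Pool.Agent.Results.MP_5d318d_nt.ModuliInClasses
import Pool.Agent.K3h37.LM.Base

/-!
# The least primes in almost all classes, for almost all moduli in the residue classes of EVERY `m ≤ X ^ (2 / 3 - ρ)`

For every modulus `m ≤ X ^ (2 / 3 - ρ)`, without any exceptional `m`, and every residue class `r` modulo `m` with
`gcd(r, m) ≤ (log X)^T`, all but at most `X / (m (log X)^U)` of the integers `a ≡ r (mod m)` with
`X / (log X)^κ ≤ a ≤ X` are `Good`: the least prime `p(a, b)` is at most `C₁ φ(a) (log a)²` for all reduced classes `b`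
modulo `a` with at most `(1 + ε) φ(a) / (C₁ log a)` exceptions, and similarly for all other bounds between
`a` and `a (log a) ^ κ`.

Nothing is used besides Mathlib in the statement.
-/

set_option autoImplicit false

namespace Pool.Agent.Results.MP_5b0a7e_nt.ModuliInClasses

open Finset

open Classical in
/-- The number of the `b` with `0 ≤ b < a` and `gcd(a, b) = 1` for which no prime `p ≤ x` is congruent to `b` modulo
`a`; for `a ≥ 2` this is the number of the reduced classes with `p(a, b) > x`. -/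
noncomputable def late (a : ℕ) (x : ℝ) : ℕ :=
  ((range a).filter (fun b => Nat.Coprime b a ∧ ∀ p : ℕ, p.Prime → (p : ℝ) ≤ x → ¬ p % a = b)).card

/-- `ψ(x; a, b) = ∑_{n ≤ x, n ≡ b mod a} Λ(n)` for `0 ≤ b < a` -/
noncomputable def psiAP (x : ℝ) (a b : ℕ) : ℝ :=
  ∑ n ∈ (Icc 1 ⌊x⌋₊).filter (fun n => n % a = b), ArithmeticFunction.vonMangoldt n

open Classical in
/-- The number of the `b` with `0 ≤ b < a` and `gcd(a, b) = 1` with `|ψ(x; a, b) - x / φ(a)| ≥ η x / φ(a)`. -/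
noncomputable def off (a : ℕ) (x η : ℝ) : ℕ :=
  ((range a).filter (fun b => Nat.Coprime b a ∧ η * (x / (Nat.totient a : ℝ)) ≤
    |psiAP x a b - x / (Nat.totient a : ℝ)|)).card

/-- For all real `x = lam φ(a) log a` with `a ≤ x ≤ a (log a) ^ κ`: the least prime `p(a, b)` is larger than `x` for at
most `(1 + ε) φ(a) / (1 + lam)` of the reduced classes `b`, and for all `η > 0` at most `(1 + ε) φ(a) / (η² lam)` of the
reduced classes `b` have `|ψ(x; a, b) - x / φ(a)| ≥ η x / φ(a)`. -/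
def Good (ε : ℝ) (κ a : ℕ) : Prop :=
  ∀ x : ℝ, (a : ℝ) ≤ x → x ≤ a * Real.log a ^ κ →
    (late a x : ℝ) * (1 + x / (Nat.totient a * Real.log a)) ≤ (1 + ε) * Nat.totient a ∧
    ∀ η : ℝ, 0 < η → (off a x η : ℝ) * (η ^ 2 * (x / (Nat.totient a * Real.log a))) ≤ (1 + ε) * Nat.totient a

lemma good_iff (ε : ℝ) (κ a : ℕ) : Good ε κ a ↔ Pool.Agent.R501.LP.LpG ε κ a := Iff.rfl

/-- The integers `a ≡ r (mod m)` with `X / (log X)^κ ≤ a ≤ X` which are not `Good`. -/
def exceptional (ε : ℝ) (κ : ℕ) (X : ℝ) (m : ℕ) (r : ℤ) : Set ℕ :=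
  {a : ℕ | 0 < a ∧ (a : ℝ) ≤ X ∧ X ≤ a * Real.log X ^ κ ∧ (a : ℤ) ≡ r [ZMOD m] ∧ ¬ Good ε κ a}

/-- **The least primes in almost all classes, for almost all moduli in the residue classes of every modulus.** For all
`0 < ε ≤ 1`, `ρ > 0`, `U`, `κ` and `T` and all sufficiently large real `X`: for EVERY integer `1 ≤ m ≤ X ^ (2 / 3 - ρ)` and
every integer `r` with `gcd(r, m) ≤ (log X)^T`, all but at most `X / (m (log X)^U)` of the integers `a ≡ r (mod m)` with
`X / (log X)^κ ≤ a ≤ X` are `Good`: for all real `x = lam φ(a) log a` with `a ≤ x ≤ a (log a) ^ κ` one has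
`p(a, b) ≤ x` for all reduced classes `b` with at most `(1 + ε) φ(a) / (1 + lam)` exceptions, and for all `η > 0` one has
`|ψ(x; a, b) - x / φ(a)| < η x / φ(a)` with at most `(1 + ε) φ(a) / (η² lam)` exceptions. -/
theorem result (ε ρ : ℝ) (hε : 0 < ε) (hε1 : ε ≤ 1) (hρ : 0 < ρ) (U κ T : ℕ) :
    ∃ X₀ : ℝ, ∀ X : ℝ, X₀ ≤ X → ∀ m : ℕ, 1 ≤ m → (m : ℝ) ≤ X ^ (2 / 3 - ρ) → ∀ r : ℤ,
      (Int.gcd r m : ℝ) ≤ Real.log X ^ T →
        (exceptional ε κ X m r).Finite ∧ ((exceptional ε κ X m r).ncard : ℝ) ≤ X / (m * Real.log X ^ U) := by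
  obtain ⟨X₀, h0⟩ := Pool.Agent.Results.MP_5d318d_nt.ModuliInClasses.result (ε / 4) ρ (by linarith) hρ U κ T
  obtain ⟨Q₀, hQ₀, hx⟩ := Pool.Agent.K3h37.LM.bad_x κ ε hε hε1
  obtain ⟨X₁, hX₁, h4⟩ := Pool.Agent.K3h37.LM.large_real Q₀ κ
  refine ⟨max X₀ X₁, fun X hX m hm1 hm r hr => ?_⟩
  obtain ⟨f1, f2⟩ := h0 X ((le_max_left _ _).trans hX) m hm1 hm r hr
  have hX1 : 1 ≤ X := hX₁.trans ((le_max_right _ _).trans hX)
  have hsub : exceptional ε κ X m r ⊆
      Pool.Agent.Results.MP_5d318d_nt.ModuliInClasses.exceptional (ε / 4) κ X m r := by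
    rintro a ⟨a1, a2, a3, a4, a5⟩
    have ha0 : (0 : ℝ) < a := by exact_mod_cast a1
    refine ⟨a1, a2, a3, a4, fun hgood => ?_⟩
    obtain ⟨x, x1, x2, x3⟩ := hx a (h4 X ((le_max_right _ _).trans hX) a a3) (by rwa [good_iff] at a5)
    refine x3 (hgood x x1 (x2.trans (mul_le_mul_of_nonneg_left ?_ ha0.le)))
    exact pow_le_pow_left₀ (Real.log_natCast_nonneg _) (Real.log_le_log ha0 a2) _
  refine ⟨f1.subset hsub, le_trans ?_ f2⟩
  exact_mod_cast Set.ncard_le_ncard hsub f1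

end Pool.Agent.Results.MP_5b0a7e_nt.ModuliInClasses
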